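import Mathlib

/-!
# Coarse density of hyperbolicity for all polynomials: definitions and statements of the parts

Project CD (MP_28f8a1_an). For nonzero `z 1, …, z N` the monic polynomial with roots `κ * z i` is
hyperbolic for all `κ` outside a set of logarithmic area `O (log (N * Λ) / sqrt N)`.
-/

set_option autoImplicit false

open Polynomial Filter Topology MeasureTheory

namespace Pool.Agent.W751.CD

/-- the monic polynomial with roots `z i` -/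
noncomputable def P {N : ℕ} (z : Fin N → ℂ) : ℂ[X] := ∏ i, (X - C (z i))

/-- logarithmic area `dA(a) / |a|^2`, the invariant measure of the multiplicative group -/
noncomputable def nu : Measure ℂ :=
  (volume : Measure ℂ).withDensity (fun a => ENNReal.ofReal ((‖a‖ ^ 2)⁻¹))

/-- the orbit of `w` escapes -/
def Esc (T : ℂ[X]) (w : ℂ) : Prop :=
  Tendsto (fun k : ℕ => ‖(fun y : ℂ => T.eval y)^[k] w‖) atTop atTop

/-- the orbit of `w` converges to an attracting fixed point -/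
def Att (T : ℂ[X]) (w : ℂ) : Prop :=
  ∃ x : ℂ, T.eval x = x ∧ ‖deriv (fun y : ℂ => T.eval y) x‖ < 1 ∧
    Tendsto (fun k : ℕ => (fun y : ℂ => T.eval y)^[k] w) atTop (𝓝 x)

/-- every critical point escapes or is attracted by an attracting fixed point -/
def Hyp (T : ℂ[X]) : Prop := ∀ c : ℂ, (derivative T).eval c = 0 → Esc T c ∨ Att T c

/-- (NU) The measure of annuli and the invariance of `nu`. -/
def S_NU : Prop :=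
  (∀ r₁ r₂ : ℝ, 0 < r₁ → r₁ ≤ r₂ →
    nu {a : ℂ | r₁ ≤ ‖a‖ ∧ ‖a‖ ≤ r₂} = ENNReal.ofReal (2 * Real.pi * Real.log (r₂ / r₁))) ∧
  (∀ b : ℂ, b ≠ 0 → ∀ E : Set ℂ, MeasurableSet E → nu ((fun a : ℂ => a * b) ⁻¹' E) = nu E) ∧
  nu {0} = 0

/-- (POW) The power map. -/
def S_POW : Prop :=
  ∀ n : ℕ, 1 ≤ n → ∀ E : Set ℂ, MeasurableSet E →
    (n : ENNReal) * nu ((fun a : ℂ => a ^ n) ⁻¹' E) = nu E

/-- (C2) The union bound with a threshold. -/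
def S_C2 : Prop :=
  S_NU → ∀ (f : ℂ → ℝ), Continuous f → (∀ u, 0 ≤ f u) → ∀ s₁ R₁ : ℝ, 0 < s₁ → s₁ < R₁ →
    ∀ (J : Finset ℂ), (∀ b ∈ J, b ≠ 0) → ∀ n : ℕ, 1 ≤ n → J.card ≤ n →
    nu (⋃ b ∈ J, {a : ℂ | s₁ ≤ ‖a * b‖ ∧ ‖a * b‖ ≤ R₁ ∧
        s₁ ≤ ‖a‖ * f (a * b) ∧ ‖a‖ * f (a * b) ≤ R₁}) ≤
      ENNReal.ofReal (4 * Real.sqrt 3 * Real.pi * Real.log (R₁ / s₁) * Real.sqrt n)

/-- (DYN) The dynamics: trapping disc or escape. -/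
def S_DYN : Prop :=
  ∀ (T : ℂ[X]) (a : ℂ) (R₀ R₁ s : ℝ), a ≠ 0 → 0 < s → 0 < R₀ → R₀ ≤ R₁ → s / 4 ≤ R₁ →
    (∀ w : ℂ, R₀ ≤ ‖w‖ → 2 * ‖w‖ ≤ ‖a * T.eval w‖) →
    (∀ w : ℂ, ‖w‖ ≤ s → ‖a * T.eval w‖ < s / 4 ∨ R₁ < ‖a * T.eval w‖) →
    (∀ c : ℂ, (derivative T).eval c = 0 → s / 4 ≤ ‖a * T.eval c‖ → ‖a * T.eval c‖ ≤ R₁ →
      ‖a * T.eval (a * T.eval c)‖ < s / 4 ∨ R₁ < ‖a * T.eval (a * T.eval c)‖) →
    Hyp (C a * T)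

/-- (FIB) The family `a * T`. -/
def S_FIB : Prop :=
  ∀ (N : ℕ), 2 ≤ N → ∀ (z : Fin N → ℂ) (δ : ℝ), 0 < δ → (∀ i, δ ≤ ‖z i‖ ∧ ‖z i‖ ≤ 1) →
    nu {a : ℂ | ¬ Hyp (C a * P z)} ≤ ENNReal.ofReal (360 * Real.sqrt N * Real.log (N / δ))

/-- (CONJ) Conjugation by a scaling. -/
def S_CONJ : Prop :=
  ∀ (N : ℕ), 1 ≤ N → ∀ (z : Fin N → ℂ) (a κ : ℂ), κ ≠ 0 →
    (Hyp (C a * P fun i => κ * z i) ↔ Hyp (C (a * κ ^ (N - 1)) * P z))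

/-- conclusion of `S_KAP` -/
def KAPc : Prop :=
  ∀ (N : ℕ), 2 ≤ N → ∀ (z : Fin N → ℂ) (L : ℝ), (∀ i, z i ≠ 0) → (∀ i j, ‖z i‖ ≤ L * ‖z j‖) →
    nu {κ : ℂ | ¬ Hyp (P fun i => κ * z i)} ≤
        ENNReal.ofReal (720 * Real.log (N * L) / Real.sqrt N) ∧
    nu {a : ℂ | ¬ Hyp (C a * P z)} ≤ ENNReal.ofReal (360 * Real.sqrt N * Real.log (N * L))

/-- (KAP) Scaling the roots. -/
def S_KAP : Prop := S_NU → S_POW → S_CONJ → S_FIB → KAPc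

/-- (EX) Coarse density of hyperbolicity: every polynomial with roots in the disc of radius `M`. -/
def S_EX : Prop :=
  S_NU → S_CONJ → KAPc →
  ∀ (N : ℕ), 2 ≤ N → ∀ (z : Fin N → ℂ) (M ε : ℝ), 1 ≤ M → (∀ i, ‖z i‖ ≤ M) → ε ≤ 1 →
    500 * Real.log (N * M) / Real.sqrt N ≤ ε →
    ∃ κ τ : ℂ, ‖κ - 1‖ ≤ ε ∧ ‖τ‖ ≤ ε ∧ Hyp (P fun i => κ * z i + τ)

end Pool.Agent.W751.CD
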