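import Mathlib
import Pool.Agent.W751.CD.Stm

/-!
# The dynamics: trapping disc or escape
-/

set_option autoImplicit false

open Polynomial Filter Topology

namespace Pool.Agent.W751.CD

lemma Esc.shift {T : ℂ[X]} {z : ℂ} (h : Esc T (T.eval z)) : Esc T z := by
  unfold Esc at *
  rw [← tendsto_add_atTop_iff_nat 1]
  exact h

lemma Att.shift {T : ℂ[X]} {z : ℂ} (h : Att T (T.eval z)) : Att T z := by
  obtain ⟨x, h1, h2, h3⟩ := h
  refine ⟨x, h1, h2, ?_⟩
  rw [← tendsto_add_atTop_iff_nat 1]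
  exact h3

lemma esc_of_large {T : ℂ[X]} {R : ℝ} (hR : 0 < R)
    (h : ∀ w : ℂ, R ≤ ‖w‖ → 2 * ‖w‖ ≤ ‖T.eval w‖) {w : ℂ} (hw : R ≤ ‖w‖) : Esc T w := by
  have h1 : ∀ j : ℕ, R * 2 ^ j ≤ ‖(fun y : ℂ => T.eval y)^[j] w‖ := by
    intro j
    induction j with
    | zero => simpa using hw
    | succ j ih =>
      rw [Function.iterate_succ_apply']
      have h2 : R ≤ ‖(fun y : ℂ => T.eval y)^[j] w‖ :=
        (le_mul_of_one_le_right hR.le (one_le_pow₀ (by norm_num))).trans ih
      have h3 := h _ h2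
      calc R * 2 ^ (j + 1) = 2 * (R * 2 ^ j) := by ring
        _ ≤ 2 * ‖(fun y : ℂ => T.eval y)^[j] w‖ := by linarith
        _ ≤ _ := h3
  exact tendsto_atTop_mono h1
    (Tendsto.const_mul_atTop hR (tendsto_pow_atTop_atTop_of_one_lt (by norm_num)))

lemma att_of_inner {T : ℂ[X]} {s : ℝ} (hs : 0 < s)
    (h : ∀ w : ℂ, ‖w‖ ≤ s → ‖T.eval w‖ ≤ s / 4) {w : ℂ} (hw : ‖w‖ ≤ s / 2) : Att T w := by
  set f : ℂ → ℂ := fun y : ℂ => T.eval y with hf
  set S : Set ℂ := Metric.closedBall 0 (s / 2) with hS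
  have hmaps : Set.MapsTo f S S := by
    intro y hy
    rw [hS, mem_closedBall_zero_iff] at hy ⊢
    have := h y (by linarith)
    simp only [hf]
    linarith
  have hder : ∀ x ∈ S, ‖deriv f x‖ ≤ 1 / 2 := by
    intro x hx
    rw [hS, mem_closedBall_zero_iff] at hx
    have h1 : ∀ z ∈ Metric.sphere x (s / 2), ‖f z‖ ≤ s / 4 := by
      intro z hz
      apply h
      have h2 : ‖z - x‖ = s / 2 := by rw [← dist_eq_norm]; exact hz
      have h3 := norm_le_norm_add_norm_sub' z x
      linarith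
    have h2 := Complex.norm_deriv_le_of_forall_mem_sphere_norm_le (by linarith : 0 < s / 2)
      (T.differentiable.diffContOnCl) h1
    refine h2.trans ?_
    rw [div_div_eq_mul_div, div_le_iff₀ hs]
    linarith
  have hdiff : ∀ x ∈ S, DifferentiableAt ℂ f x := fun x _ => T.differentiableAt
  have hlip : LipschitzOnWith (1 / 2) f S := by
    refine Convex.lipschitzOnWith_of_nnnorm_deriv_le (𝕜 := ℂ) hdiff ?_ (convex_closedBall 0 _)
    intro x hx
    have := hder x hx
    rw [← NNReal.coe_le_coe]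
    simpa using this
  have hcon : ContractingWith (1 / 2) (hmaps.restrict f S S) := by
    refine ⟨by rw [← NNReal.coe_lt_coe]; norm_num, ?_⟩
    exact hlip.mapsToRestrict hmaps
  have hzs : w ∈ S := by rw [hS, mem_closedBall_zero_iff]; exact hw
  obtain ⟨y, hys, hy, hlim, -⟩ := hcon.exists_fixedPoint' Metric.isClosed_closedBall.isComplete hmaps
    hzs (edist_ne_top _ _)
  exact ⟨y, hy, lt_of_le_of_lt (hder y hys) (by norm_num), hlim⟩

theorem dyn_holds : S_DYN := by
  intro T a R₀ R₁ s ha hs hR₀ hR hsR hesc hin hcr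
  have hev : ∀ w, (C a * T).eval w = a * T.eval w := fun w => by simp
  set G : ℂ[X] := C a * T with hG
  have hfar : ∀ w, R₁ < ‖G.eval w‖ → Esc G w := by
    intro w hw
    apply Esc.shift
    apply esc_of_large hR₀ (fun y hy => by rw [hev]; exact hesc y hy)
    linarith
  -- the dichotomy for the disc
  have hball : (∀ w, ‖w‖ ≤ s → ‖G.eval w‖ < s / 4) ∨ (∀ w, ‖w‖ ≤ s → R₁ < ‖G.eval w‖) := by
    have hpre : IsPreconnected (Metric.closedBall (0 : ℂ) s) := (convex_closedBall 0 s).isPreconnected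
    have ho1 : IsOpen {w : ℂ | ‖G.eval w‖ < s / 4} :=
      isOpen_lt (G.continuous.norm) continuous_const
    have ho2 : IsOpen {w : ℂ | R₁ < ‖G.eval w‖} :=
      isOpen_lt continuous_const (G.continuous.norm)
    have hcov : Metric.closedBall (0 : ℂ) s ⊆ {w : ℂ | ‖G.eval w‖ < s / 4} ∪ {w : ℂ | R₁ < ‖G.eval w‖} := by
      intro w hw
      rw [mem_closedBall_zero_iff] at hw
      rcases hin w hw with h | h
      · left; simpa [hev] using h
      · right; simpa [hev] using h
    by_contra hcon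
    push Not at hcon
    obtain ⟨⟨w₁, hw₁, h1⟩, w₂, hw₂, h2⟩ := hcon
    have hA : (Metric.closedBall (0 : ℂ) s ∩ {w : ℂ | ‖G.eval w‖ < s / 4}).Nonempty := by
      refine ⟨w₂, by simpa using hw₂, ?_⟩
      rcases hin w₂ hw₂ with h | h
      · simpa [hev] using h
      · rw [hev] at h2; exact absurd h (not_lt.2 h2)
    have hB : (Metric.closedBall (0 : ℂ) s ∩ {w : ℂ | R₁ < ‖G.eval w‖}).Nonempty := by
      refine ⟨w₁, by simpa using hw₁, ?_⟩
      rcases hin w₁ hw₁ with h | h
      · rw [hev] at h1; exact absurd h (not_lt.2 h1)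
      · simpa [hev] using h
    obtain ⟨w, -, hw1, hw2⟩ := hpre _ _ ho1 ho2 hcov hA hB
    simp only [Set.mem_setOf_eq] at hw1 hw2
    linarith
  have hsmall : ∀ w, ‖G.eval w‖ < s / 4 → Esc G w ∨ Att G w := by
    intro w hw
    rcases hball with h | h
    · right
      apply Att.shift
      apply att_of_inner hs (fun y hy => (h y hy).le)
      linarith
    · left
      apply Esc.shift
      apply hfar
      apply h
      linarith
  have hgood : ∀ w, (‖G.eval w‖ < s / 4 ∨ R₁ < ‖G.eval w‖) → Esc G w ∨ Att G w := by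
    rintro w (h | h)
    · exact hsmall w h
    · exact Or.inl (hfar w h)
  intro c hc
  have hc' : (derivative T).eval c = 0 := by
    rw [hG, derivative_C_mul, eval_mul, eval_C] at hc
    exact (mul_eq_zero.1 hc).resolve_left ha
  by_cases h1 : ‖G.eval c‖ < s / 4
  · exact hgood c (Or.inl h1)
  · by_cases h2 : R₁ < ‖G.eval c‖
    · exact hgood c (Or.inr h2)
    · rw [not_lt] at h1 h2
      have h3 := hcr c hc' (by rw [← hev]; exact h1) (by rw [← hev]; exact h2)
      rw [← hev, ← hev] at h3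
      rcases hgood _ h3 with h | h
      · exact Or.inl h.shift
      · exact Or.inr h.shift

end Pool.Agent.W751.CD
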