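import Mathlib
import Pool.Agent.W751.CD.Stm
import Pool.Agent.W751.CD.Dyn

/-!
# The family `a * T`
-/

set_option autoImplicit false

open Polynomial Filter Topology MeasureTheory

namespace Pool.Agent.W751.CD

variable {N : ℕ} {z : Fin N → ℂ} {δ : ℝ}

lemma eval_P (z : Fin N → ℂ) (w : ℂ) : (P z).eval w = ∏ i, (w - z i) := by
  simp [P, eval_prod]

lemma P_monic (z : Fin N → ℂ) : (P z).Monic := monic_prod_of_monic _ _ fun i _ => monic_X_sub_C _

lemma P_natDegree (z : Fin N → ℂ) : (P z).natDegree = N := by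
  unfold P
  rw [natDegree_prod_of_monic _ _ fun i _ => monic_X_sub_C _]
  simp

lemma norm_P_le (hz : ∀ i, ‖z i‖ ≤ 1) {w : ℂ} (hw : ‖w‖ ≤ 1) : ‖(P z).eval w‖ ≤ 2 ^ N := by
  rw [eval_P, norm_prod]
  calc ∏ i, ‖w - z i‖ ≤ ∏ i : Fin N, (2 : ℝ) := by
        apply Finset.prod_le_prod (fun i _ => norm_nonneg _)
        intro i _
        have := norm_sub_le w (z i)
        have := hz i
        linarith
    _ = 2 ^ N := by simp

lemma le_norm_P (hz : ∀ i, ‖z i‖ ≤ 1) {w : ℂ} (hw : 2 ≤ ‖w‖) : (‖w‖ / 2) ^ N ≤ ‖(P z).eval w‖ := by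
  rw [eval_P, norm_prod]
  calc (‖w‖ / 2) ^ N = ∏ _i : Fin N, (‖w‖ / 2) := by
        rw [Finset.prod_const, Finset.card_univ, Fintype.card_fin]
    _ ≤ ∏ i, ‖w - z i‖ := by
        apply Finset.prod_le_prod (fun i _ => by positivity)
        intro i _
        have := norm_sub_norm_le w (z i)
        have := hz i
        linarith

lemma compare (hN : 1 ≤ N) (hz : ∀ i, δ ≤ ‖z i‖) {w : ℂ} (hw : ‖w‖ ≤ δ / (2 * N)) :
    ‖(P z).eval w‖ ≤ 2 * ‖(P z).eval 0‖ ∧ ‖(P z).eval 0‖ ≤ 2 * ‖(P z).eval w‖ := by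
  have hN0 : (0 : ℝ) < N := by exact_mod_cast hN
  have hN1 : (1 : ℝ) ≤ N := by exact_mod_cast hN
  have h0 : ‖(P z).eval 0‖ = ∏ i, ‖z i‖ := by
    rw [eval_P, norm_prod]; simp
  have hq : ∀ i, ‖w‖ ≤ ‖z i‖ / (2 * N) := fun i => hw.trans (by gcongr; exact hz i)
  constructor
  · -- upper bound
    have h1 : ‖(P z).eval w‖ ≤ (∏ i, ‖z i‖) * (1 + 1 / (2 * N)) ^ N := by
      rw [eval_P, norm_prod]
      calc ∏ i, ‖w - z i‖ ≤ ∏ i, (‖z i‖ * (1 + 1 / (2 * N))) := by
            apply Finset.prod_le_prod (fun i _ => norm_nonneg _)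
            intro i _
            have h2 := norm_sub_le w (z i)
            have h3 := hq i
            calc ‖w - z i‖ ≤ ‖w‖ + ‖z i‖ := h2
              _ ≤ ‖z i‖ / (2 * N) + ‖z i‖ := by linarith
              _ = _ := by ring
        _ = _ := by rw [Finset.prod_mul_distrib]; simp
    have h2 : (1 + 1 / (2 * (N : ℝ))) ^ N ≤ 2 := by
      calc (1 + 1 / (2 * (N : ℝ))) ^ N ≤ (Real.exp (1 / (2 * N))) ^ N := by
            gcongr
            rw [add_comm]
            exact Real.add_one_le_exp _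
        _ = Real.exp (1 / 2) := by
            rw [← Real.exp_nat_mul]
            congr 1
            field_simp
        _ ≤ 2 := by
            have h3 : Real.exp (1 / 2) ^ 2 = Real.exp 1 := by
              rw [← Real.exp_nat_mul]; congr 1; norm_num
            have h4 := Real.exp_one_lt_d9
            have h5 := Real.exp_pos (1 / 2)
            nlinarith
    have h3 : 0 ≤ ∏ i, ‖z i‖ := Finset.prod_nonneg fun i _ => norm_nonneg _
    rw [h0]
    nlinarith
  · -- lower bound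
    have h1 : (∏ i, ‖z i‖) * (1 - 1 / (2 * N)) ^ N ≤ ‖(P z).eval w‖ := by
      rw [eval_P, norm_prod]
      calc (∏ i, ‖z i‖) * (1 - 1 / (2 * N)) ^ N = ∏ i, (‖z i‖ * (1 - 1 / (2 * N))) := by
            rw [Finset.prod_mul_distrib]; simp
        _ ≤ ∏ i, ‖w - z i‖ := by
            have h5 : 1 / (2 * (N : ℝ)) ≤ 1 := by
              rw [div_le_one (by positivity)]; linarith
            apply Finset.prod_le_prod
            · intro i _
              apply mul_nonneg (norm_nonneg _)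
              linarith
            intro i _
            have h2 := norm_sub_norm_le (z i) w
            rw [norm_sub_rev] at h2
            have h3 := hq i
            calc ‖z i‖ * (1 - 1 / (2 * N)) = ‖z i‖ - ‖z i‖ / (2 * N) := by ring
              _ ≤ ‖z i‖ - ‖w‖ := by linarith
              _ ≤ _ := h2
    have h2 : (1 : ℝ) / 2 ≤ (1 - 1 / (2 * (N : ℝ))) ^ N := by
      have h3 := one_add_mul_le_pow (a := -(1 / (2 * (N : ℝ)))) (by
        have : 1 / (2 * (N : ℝ)) ≤ 1 := by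
          rw [div_le_one (by positivity)]; linarith
        linarith) N
      have h4 : (1 : ℝ) + N * -(1 / (2 * (N : ℝ))) = 1 / 2 := by field_simp; norm_num
      rw [h4] at h3
      simpa [sub_eq_add_neg] using h3
    have h3 : 0 ≤ ∏ i, ‖z i‖ := Finset.prod_nonneg fun i _ => norm_nonneg _
    rw [h0]
    nlinarith

lemma crit_le (hN : 1 ≤ N) (hz : ∀ i, ‖z i‖ ≤ 1) {c : ℂ} (hc : (derivative (P z)).eval c = 0)
    (hd : derivative (P z) ≠ 0) : ‖c‖ ≤ 1 := by
  have hdeg : 0 < (P z).degree := by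
    rw [degree_eq_natDegree (P_monic z).ne_zero, P_natDegree]
    exact_mod_cast hN
  have h1 : c ∈ (derivative (P z)).rootSet ℂ := by
    rw [mem_rootSet]
    refine ⟨hd, ?_⟩
    simpa [aeval_def] using hc
  have h2 := Polynomial.rootSet_derivative_subset_convexHull_rootSet hdeg h1
  have h3 : (P z).rootSet ℂ ⊆ Metric.closedBall (0 : ℂ) 1 := by
    intro w hw
    rw [mem_rootSet] at hw
    have h4 : (P z).eval w = 0 := by simpa [aeval_def] using hw.2
    rw [eval_P, Finset.prod_eq_zero_iff] at h4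
    obtain ⟨i, -, hi⟩ := h4
    rw [sub_eq_zero] at hi
    rw [mem_closedBall_zero_iff, hi]
    exact hz i
  have h4 := convexHull_min h3 (convex_closedBall 0 1) h2
  simpa using h4


lemma numeric {N : ℕ} (hN : 2 ≤ N) {δ : ℝ} (hδ : 0 < δ) (hδ1 : δ ≤ 1) :
    2 * Real.pi * Real.log (4 * (258 * N / δ) / (δ / (2 * N) / 4)) +
      4 * Real.sqrt 3 * Real.pi * Real.log ((258 * N / δ) / (δ / (2 * N) / 4)) * Real.sqrt N ≤
    360 * Real.sqrt N * Real.log (N / δ) := by
  have hN2 : (2 : ℝ) ≤ N := by exact_mod_cast hN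
  have hN0 : (0 : ℝ) < N := by linarith
  set l := Real.log (N / δ) with hl
  have hl2 : Real.log 2 ≤ l := by
    apply Real.log_le_log (by norm_num)
    rw [le_div_iff₀ hδ]
    nlinarith
  have hlog2 : 0.6931 < Real.log 2 := by have := Real.log_two_gt_d9; linarith
  have h2064 : Real.log 2064 ≤ 45 / 4 * Real.log 2 := by
    have h1 : 4 * Real.log 2064 ≤ 45 * Real.log 2 := by
      have h2 : Real.log (2064 ^ 4) ≤ Real.log (2 ^ 45) :=
        Real.log_le_log (by positivity) (by norm_num)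
      rw [Real.log_pow, Real.log_pow] at h2
      exact_mod_cast h2
    linarith
  have e1 : (258 * N / δ) / (δ / (2 * N) / 4) = 2064 * (N / δ) ^ 2 := by
    field_simp; norm_num
  have e2 : 4 * (258 * N / δ) / (δ / (2 * N) / 4) = 2 ^ 2 * (2064 * (N / δ) ^ 2) := by
    field_simp; norm_num
  have hpos : 0 < (N / δ : ℝ) := by positivity
  have f1 : Real.log (2064 * (N / δ) ^ 2) = Real.log 2064 + 2 * l := by
    rw [Real.log_mul (by norm_num) (by positivity), Real.log_pow]; push_cast; rfl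
  have f2 : Real.log (2 ^ 2 * (2064 * (N / δ) ^ 2)) = 2 * Real.log 2 + (Real.log 2064 + 2 * l) := by
    rw [Real.log_mul (by norm_num) (by positivity), Real.log_pow, f1]; push_cast; rfl
  rw [e1, e2, f1, f2]
  have g1 : Real.log 2064 + 2 * l ≤ 53 / 4 * l := by linarith
  have g2 : 2 * Real.log 2 + (Real.log 2064 + 2 * l) ≤ 61 / 4 * l := by linarith
  have hpi := Real.pi_lt_d4
  have hpi0 := Real.pi_pos
  have h3 : Real.sqrt 3 ≤ 1.7321 := by
    rw [Real.sqrt_le_left (by norm_num)]; norm_num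
  have hs : 1.414 ≤ Real.sqrt N := by
    apply Real.le_sqrt_of_sq_le
    linarith
  have hl0 : 0 < l := by linarith
  have k1 : 2 * Real.pi * (2 * Real.log 2 + (Real.log 2064 + 2 * l)) ≤ 68 * Real.sqrt N * l := by
    calc 2 * Real.pi * (2 * Real.log 2 + (Real.log 2064 + 2 * l))
        ≤ 2 * Real.pi * (61 / 4 * l) := by gcongr
      _ = (61 / 2 * Real.pi) * l := by ring
      _ ≤ (68 * Real.sqrt N) * l := by
          apply mul_le_mul_of_nonneg_right _ hl0.le
          nlinarith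
  have k2 : 4 * Real.sqrt 3 * Real.pi * (Real.log 2064 + 2 * l) * Real.sqrt N ≤
      289 * Real.sqrt N * l := by
    have q1 : Real.sqrt 3 * Real.pi ≤ 5.4419 := by
      calc Real.sqrt 3 * Real.pi ≤ 1.7321 * 3.1416 := by gcongr
        _ ≤ _ := by norm_num
    calc 4 * Real.sqrt 3 * Real.pi * (Real.log 2064 + 2 * l) * Real.sqrt N
        ≤ 4 * Real.sqrt 3 * Real.pi * (53 / 4 * l) * Real.sqrt N := by gcongr
      _ = 53 * (Real.sqrt 3 * Real.pi) * l * Real.sqrt N := by ring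
      _ ≤ 53 * 5.4419 * l * Real.sqrt N := by gcongr
      _ ≤ _ := by
          have : 0 ≤ l * Real.sqrt N := by positivity
          nlinarith
  nlinarith [mul_pos hl0 (by linarith : 0 < Real.sqrt N)]

/-- outside of the exceptional set the polynomial is hyperbolic -/
lemma hyp_of (hN : 2 ≤ N) (hδ : 0 < δ) (hz : ∀ i, δ ≤ ‖z i‖ ∧ ‖z i‖ ≤ 1) {a : ℂ} (ha : a ≠ 0)
    (h1 : ¬ (δ / (2 * N) / 4 / 2 ≤ ‖a‖ * ‖(P z).eval 0‖ ∧
      ‖a‖ * ‖(P z).eval 0‖ ≤ 2 * (258 * N / δ)))
    (h2 : ∀ c : ℂ, (derivative (P z)).eval c = 0 → (P z).eval c ≠ 0 →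
      δ / (2 * N) / 4 ≤ ‖a * (P z).eval c‖ → ‖a * (P z).eval c‖ ≤ 258 * N / δ →
      ¬ (δ / (2 * N) / 4 ≤ ‖a‖ * ‖(P z).eval (a * (P z).eval c)‖ ∧
        ‖a‖ * ‖(P z).eval (a * (P z).eval c)‖ ≤ 258 * N / δ)) :
    Hyp (C a * P z) := by
  have hN2 : (2 : ℝ) ≤ N := by exact_mod_cast hN
  have hN0 : (0 : ℝ) < N := by linarith
  have hδ1 : δ ≤ 1 := (hz ⟨0, by omega⟩).1.trans (hz ⟨0, by omega⟩).2
  have hz1 : ∀ i, ‖z i‖ ≤ 1 := fun i => (hz i).2
  have hz0 : ∀ i, δ ≤ ‖z i‖ := fun i => (hz i).1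
  have ha0 : 0 < ‖a‖ := norm_pos_iff.2 ha
  set s : ℝ := δ / (2 * N) with hs
  have hs0 : 0 < s := by positivity
  have hs1 : s ≤ 1 / 4 := by
    rw [hs, div_le_div_iff₀ (by positivity) (by norm_num)]
    linarith
  have hd : derivative (P z) ≠ 0 := by
    intro h
    have := natDegree_eq_zero_of_derivative_eq_zero h
    rw [P_natDegree] at this
    omega
  by_cases hcase : s / 4 ≤ ‖a‖ * 2 ^ N
  · -- main case
    apply dyn_holds (P z) a (258 * N / δ) (258 * N / δ) s ha hs0 (by positivity) le_rfl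
    · -- s / 4 ≤ R₁
      have : (1 : ℝ) ≤ 258 * N / δ := by rw [le_div_iff₀ hδ]; nlinarith
      linarith
    · intro w hw
      have hw2 : 129 * N / δ ≤ ‖w‖ / 2 := by
        have : 129 * N / δ = 258 * N / δ / 2 := by ring
        linarith
      have hbig : (2 : ℝ) ≤ 129 * N / δ := by rw [le_div_iff₀ hδ]; nlinarith
      have hP := le_norm_P hz1 (w := w) (by linarith)
      obtain ⟨m, rfl⟩ : ∃ m, N = m + 2 := ⟨N - 2, by omega⟩
      set y := ‖w‖ / 2 with hy
      have hsy : 129 / 8 ≤ s / 4 * y := by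
        have : s / 4 * (129 * ((m + 2 : ℕ) : ℝ) / δ) = 129 / 8 := by
          rw [hs]; field_simp; norm_num
        have h5 : s / 4 * (129 * ((m + 2 : ℕ) : ℝ) / δ) ≤ s / 4 * y := by gcongr
        linarith
      have hy2 : 2 ≤ y := by linarith
      have hpow : (2 : ℝ) ^ m ≤ y ^ m := by gcongr
      have key : 4 * 2 ^ (m + 2) ≤ s / 4 * y ^ (m + 1) := by
        calc (4 : ℝ) * 2 ^ (m + 2) = 16 * 2 ^ m := by ring
          _ ≤ 129 / 8 * 2 ^ m := by
              have : (0 : ℝ) < 2 ^ m := by positivity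
              nlinarith
          _ ≤ (s / 4 * y) * y ^ m := by gcongr
          _ = _ := by ring
      have key2 : 4 ≤ ‖a‖ * y ^ (m + 1) := by
        have h6 : 4 * (2 : ℝ) ^ (m + 2) ≤ (‖a‖ * 2 ^ (m + 2)) * y ^ (m + 1) := by
          calc _ ≤ s / 4 * y ^ (m + 1) := key
            _ ≤ _ := by gcongr
        have h7 : (0 : ℝ) < 2 ^ (m + 2) := by positivity
        have h8 : (‖a‖ * 2 ^ (m + 2)) * y ^ (m + 1) = (‖a‖ * y ^ (m + 1)) * 2 ^ (m + 2) := by ring
        rw [h8] at h6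
        exact le_of_mul_le_mul_right h6 h7
      rw [norm_mul]
      calc 2 * ‖w‖ = 4 * y := by rw [hy]; ring
        _ ≤ (‖a‖ * y ^ (m + 1)) * y := by gcongr
        _ = ‖a‖ * y ^ (m + 2) := by ring
        _ ≤ _ := by gcongr
    · intro w hw
      by_contra hcon
      push Not at hcon
      obtain ⟨hc1, hc2⟩ := hcon
      obtain ⟨q1, q2⟩ := compare (by omega : 1 ≤ N) hz0 hw
      rw [norm_mul] at hc1 hc2
      apply h1
      constructor
      · calc s / 4 / 2 ≤ ‖a‖ * ‖(P z).eval w‖ / 2 := by linarith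
          _ ≤ ‖a‖ * (2 * ‖(P z).eval 0‖) / 2 := by gcongr
          _ = _ := by ring
      · calc ‖a‖ * ‖(P z).eval 0‖ ≤ ‖a‖ * (2 * ‖(P z).eval w‖) := by gcongr
          _ = 2 * (‖a‖ * ‖(P z).eval w‖) := by ring
          _ ≤ _ := by linarith
    · intro c hc hc1 hc2
      by_contra hcon
      push Not at hcon
      have hne : (P z).eval c ≠ 0 := by
        intro h0
        rw [h0, mul_zero, norm_zero] at hc1
        linarith
      apply h2 c hc hne hc1 hc2
      have := hcon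
      rw [norm_mul a ((P z).eval (a * (P z).eval c))] at this
      exact this
  · -- tiny `a`
    rw [not_le] at hcase
    have hsmall : ∀ w : ℂ, ‖w‖ ≤ 1 → ‖a * (P z).eval w‖ < s / 4 := by
      intro w hw
      rw [norm_mul]
      calc ‖a‖ * ‖(P z).eval w‖ ≤ ‖a‖ * 2 ^ N := by gcongr; exact norm_P_le hz1 hw
        _ < _ := hcase
    apply dyn_holds (P z) a (max 2 (8 / ‖a‖)) (max 2 (8 / ‖a‖)) s ha hs0 (by positivity) le_rfl
    · have := le_max_left (2 : ℝ) (8 / ‖a‖)
      linarith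
    · intro w hw
      have hw2 : 2 ≤ ‖w‖ := (le_max_left _ _).trans hw
      have hw8 : 8 / ‖a‖ ≤ ‖w‖ := (le_max_right _ _).trans hw
      have hP := le_norm_P hz1 hw2
      rw [norm_mul]
      have h5 : (‖w‖ / 2) ^ 2 ≤ (‖w‖ / 2) ^ N := pow_le_pow_right₀ (by linarith) hN
      have h6 : 8 ≤ ‖w‖ * ‖a‖ := by rwa [div_le_iff₀ ha0] at hw8
      calc 2 * ‖w‖ = 8 * (‖w‖ / 4) := by ring
        _ ≤ (‖w‖ * ‖a‖) * (‖w‖ / 4) := by gcongr
        _ = ‖a‖ * (‖w‖ / 2) ^ 2 := by ring
        _ ≤ ‖a‖ * (‖w‖ / 2) ^ N := by gcongr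
        _ ≤ _ := by gcongr
    · intro w hw
      exact Or.inl (hsmall w (by linarith))
    · intro c hc hc1 _
      exact absurd (hsmall c (crit_le (by omega) hz1 hc hd)) (not_lt.2 hc1)

theorem fib_holds (hNU : S_NU) (hC2 : S_C2) : S_FIB := by
  intro N hN z δ hδ hz
  have hN2 : (2 : ℝ) ≤ N := by exact_mod_cast hN
  have hN0 : (0 : ℝ) < N := by linarith
  have hδ1 : δ ≤ 1 := (hz ⟨0, by omega⟩).1.trans (hz ⟨0, by omega⟩).2
  set s₁ : ℝ := δ / (2 * N) / 4 with hs₁
  set R₁ : ℝ := 258 * N / δ with hR₁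
  have hs0 : 0 < s₁ := by positivity
  have hR0 : 0 < R₁ := by positivity
  have hsR : s₁ < R₁ := by
    have h1 : s₁ ≤ 1 / 16 := by
      rw [hs₁, div_div, div_le_div_iff₀ (by positivity) (by norm_num)]
      nlinarith
    have h2 : (1 : ℝ) ≤ R₁ := by rw [hR₁, le_div_iff₀ hδ]; nlinarith
    linarith
  set t : ℝ := ‖(P z).eval 0‖ with ht
  have ht0 : 0 < t := by
    rw [ht, eval_P, norm_prod]
    apply Finset.prod_pos
    intro i _
    have := (hz i).1
    rw [zero_sub, norm_neg]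
    linarith
  have hd : derivative (P z) ≠ 0 := by
    intro h
    have := natDegree_eq_zero_of_derivative_eq_zero h
    rw [P_natDegree] at this
    omega
  set J : Finset ℂ := ((derivative (P z)).roots.toFinset.image (fun c => (P z).eval c)).filter
    (fun b => b ≠ 0) with hJ
  have hJ0 : ∀ b ∈ J, b ≠ 0 := fun b hb => (Finset.mem_filter.1 hb).2
  have hJc : J.card ≤ N := by
    calc J.card ≤ ((derivative (P z)).roots.toFinset.image (fun c => (P z).eval c)).card :=
          Finset.card_filter_le _ _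
      _ ≤ (derivative (P z)).roots.toFinset.card := Finset.card_image_le
      _ ≤ Multiset.card (derivative (P z)).roots := Multiset.toFinset_card_le _
      _ ≤ (derivative (P z)).natDegree := card_roots' _
      _ ≤ N := by
          have := natDegree_derivative_le (P z)
          rw [P_natDegree] at this
          omega
  set f : ℂ → ℝ := fun u => ‖(P z).eval u‖ with hf
  have hfc : Continuous f := (P z).continuous.norm
  have hC := hC2 hNU f hfc (fun u => norm_nonneg _) s₁ R₁ hs0 hsR J hJ0 N (by omega) hJc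
  set A1 : Set ℂ := {a : ℂ | s₁ / 2 / t ≤ ‖a‖ ∧ ‖a‖ ≤ 2 * R₁ / t} with hA1
  set A2 : Set ℂ := ⋃ b ∈ J, {a : ℂ | s₁ ≤ ‖a * b‖ ∧ ‖a * b‖ ≤ R₁ ∧
        s₁ ≤ ‖a‖ * f (a * b) ∧ ‖a‖ * f (a * b) ≤ R₁} with hA2
  have hsub : {a : ℂ | ¬ Hyp (C a * P z)} ⊆ {0} ∪ A1 ∪ A2 := by
    intro a ha
    by_contra hcon
    apply ha
    rw [Set.mem_union, Set.mem_union, not_or, not_or] at hcon
    obtain ⟨⟨h0, h1⟩, h2⟩ := hcon
    apply hyp_of hN hδ hz h0
    · rintro ⟨e1, e2⟩
      apply h1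
      rw [hA1]
      refine ⟨?_, ?_⟩
      · rw [div_le_iff₀ ht0]; exact e1
      · rw [le_div_iff₀ ht0]; exact e2
    · rintro c hc hne e1 e2 ⟨e3, e4⟩
      apply h2
      rw [hA2, Set.mem_iUnion₂]
      refine ⟨(P z).eval c, ?_, e1, e2, e3, e4⟩
      rw [hJ, Finset.mem_filter, Finset.mem_image]
      refine ⟨⟨c, ?_, rfl⟩, hne⟩
      rw [Multiset.mem_toFinset, mem_roots hd]
      exact hc
  have hm1 : nu A1 = ENNReal.ofReal (2 * Real.pi * Real.log (4 * R₁ / s₁)) := by
    have h1 := hNU.1 (s₁ / 2 / t) (2 * R₁ / t) (by positivity) (by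
      gcongr ?_ / t
      linarith)
    rw [hA1, h1]
    congr 3
    field_simp
    norm_num
  calc nu {a : ℂ | ¬ Hyp (C a * P z)} ≤ nu ({0} ∪ A1 ∪ A2) := measure_mono hsub
    _ ≤ nu ({0} ∪ A1) + nu A2 := measure_union_le _ _
    _ ≤ nu {0} + nu A1 + nu A2 := by gcongr; exact measure_union_le _ _
    _ ≤ 0 + ENNReal.ofReal (2 * Real.pi * Real.log (4 * R₁ / s₁)) +
        ENNReal.ofReal (4 * Real.sqrt 3 * Real.pi * Real.log (R₁ / s₁) * Real.sqrt N) := by
        rw [hNU.2.2, hm1]; gcongr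
    _ ≤ ENNReal.ofReal (360 * Real.sqrt N * Real.log (N / δ)) := by
        rw [zero_add, ← ENNReal.ofReal_add]
        · exact ENNReal.ofReal_le_ofReal (numeric hN hδ hδ1)
        · have : 0 ≤ Real.log (4 * R₁ / s₁) := by
            apply Real.log_nonneg
            rw [le_div_iff₀ hs0]
            linarith
          have := Real.pi_pos
          positivity
        · have : 0 ≤ Real.log (R₁ / s₁) := by
            apply Real.log_nonneg
            rw [le_div_iff₀ hs0]
            linarith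
          have := Real.pi_pos
          positivity

end Pool.Agent.W751.CD
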